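import Mathlib

set_option autoImplicit false

/-!
# MP_79bdd6_co: collisions whose difference is the string 11…10 are never Eulerian

For `n ≤ 50` every collision of Steinhaus graphs in which all degrees have the same parity has the
difference `s₁ + s₂ = 11…10` (problem file). We prove, for every `n`, that a collision with this
difference has odd degrees at the vertices `3` and `n - 4` (for `n ≥ 5`), so it is never a counterexample to
Q1, and that `n ≡ 2 (mod 4)` as soon as the degrees of the vertices `0` and `1` have the same parity.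
-/

namespace Pool.Agent.Results.MP_79bdd6_co.OnesDifference

/-- `A` (restricted to indices below `n`) is a Steinhaus matrix of order `n`; its generating string is
`A 0 1, …, A 0 (n - 1)`. -/
structure Steinhaus (n : ℕ) (A : ℕ → ℕ → ZMod 2) : Prop where
  diag : ∀ i, i < n → A i i = 0
  symm : ∀ i j, i < n → j < n → A i j = A j i
  rule : ∀ i j, i < j → j + 1 < n → A (i + 1) (j + 1) = A i j + A i (j + 1)

/-- The degree of the vertex `i` in the graph with adjacency matrix `A` on the vertices `0, …, n - 1`. -/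
def deg (n : ℕ) (A : ℕ → ℕ → ZMod 2) (i : ℕ) : ℕ := ((Finset.range n).filter (fun j => A i j = 1)).card

/-- `1` or `0` according to whether `a = 1`. -/
def ind (a : ZMod 2) : ℕ := if a = 1 then 1 else 0

theorem deg_eq (n : ℕ) (A : ℕ → ℕ → ZMod 2) (i : ℕ) : deg n A i = ∑ j ∈ Finset.range n, ind (A i j) := by
  unfold deg ind
  rw [Finset.card_filter]

theorem ind_cast (a : ZMod 2) : ((ind a : ℕ) : ZMod 2) = a := by
  revert a; decide

theorem deg_cast (n : ℕ) (A : ℕ → ℕ → ZMod 2) (i : ℕ) :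
    ((deg n A i : ℕ) : ZMod 2) = ∑ j ∈ Finset.range n, A i j := by
  rw [deg_eq, Nat.cast_sum]
  exact Finset.sum_congr rfl fun j _ => ind_cast _

theorem z2_self (a : ZMod 2) : a + a = 0 := by revert a; decide

theorem row_one (n : ℕ) (A : ℕ → ℕ → ZMod 2) (hA : Steinhaus n A) (m : ℕ) (hm : m + 2 ≤ n) :
    ∑ j ∈ Finset.range (m + 2), A 1 j = A 0 (m + 1) := by
  induction m with
  | zero =>
    rw [Finset.sum_range_succ, Finset.sum_range_succ, Finset.sum_range_zero, hA.diag 1 (by omega),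
      hA.symm 1 0 (by omega) (by omega)]
    simp
  | succ m ih =>
    rw [Finset.sum_range_succ, ih (by omega), show (1 : ℕ) = 0 + 1 from rfl,
      show m + (0 + 1) + 1 = (m + 1) + 1 from rfl, hA.rule 0 (m + 1) (by omega) (by omega), ← add_assoc, z2_self,
      zero_add]

theorem row_three (n : ℕ) (A : ℕ → ℕ → ZMod 2) (hA : Steinhaus n A) (m : ℕ) (hm : m + 4 ≤ n) :
    ∑ j ∈ Finset.range (m + 4), A 3 j = A 0 2 + A 2 (m + 3) := by
  induction m with
  | zero =>
    have h13 : A 1 3 = A 0 2 + A 0 3 := hA.rule 0 2 (by omega) (by omega)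
    rw [zero_add, Finset.sum_range_succ, Finset.sum_range_succ, Finset.sum_range_succ, Finset.sum_range_succ,
      Finset.sum_range_zero, hA.diag 3 (by omega),
      hA.symm 3 0 (by omega) (by omega), hA.symm 3 1 (by omega) (by omega), hA.symm 3 2 (by omega) (by omega), h13]
    generalize A 0 3 = x
    generalize A 0 2 = y
    generalize A 2 3 = z
    revert x y z
    decide
  | succ m ih =>
    have hr : A 3 (m + 4) = A 2 (m + 3) + A 2 (m + 4) := hA.rule 2 (m + 3) (by omega) (by omega)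
    rw [show m + 1 + 4 = (m + 4) + 1 from rfl, Finset.sum_range_succ, ih (by omega), hr,
      show m + 1 + 3 = m + 4 from rfl]
    generalize A 0 2 = x
    generalize A 2 (m + 3) = y
    generalize A 2 (m + 4) = z
    revert x y z
    decide

theorem ne_add (a b : ZMod 2) (h : ind a + ind b = ind (a + 1) + ind (b + 1)) : a + b = 1 := by
  revert a b; decide

theorem ind_add_one (a : ZMod 2) : ind a + ind (a + 1) = 1 := by
  revert a; decide

theorem odd_of_cast (k : ℕ) (h : (k : ZMod 2) = 1) : Odd k := by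
  rcases Nat.even_or_odd k with he | ho
  · rw [(ZMod.natCast_eq_zero_iff_even).2 he] at h
    exact absurd h (by decide)
  · exact ho

theorem three (n : ℕ) (hn : 5 ≤ n) (A B : ℕ → ℕ → ZMod 2) (hA : Steinhaus n A) (hB : Steinhaus n B)
    (hdeg : deg n A 2 = deg n B 2)
    (h1 : ∀ j, 1 ≤ j → j + 1 < n → B 0 j = A 0 j + 1) (h2 : B 0 (n - 1) = A 0 (n - 1)) : Odd (deg n A 3) := by
  obtain ⟨k, rfl⟩ : ∃ k, n = k + 5 := ⟨n - 5, by omega⟩
  simp only [show k + 5 - 1 = k + 4 from rfl] at h2
  have e20 : B 2 0 = A 2 0 + 1 := by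
    rw [hB.symm 2 0 (by omega) (by omega), hA.symm 2 0 (by omega) (by omega)]
    exact h1 2 (by omega) (by omega)
  have r1 : ∀ j, 2 ≤ j → j + 1 < k + 5 → B 1 j = A 1 j := by
    intro j hj hj'
    obtain ⟨l, rfl⟩ : ∃ l, j = l + 1 := ⟨j - 1, by omega⟩
    have ea : A 1 (l + 1) = A 0 l + A 0 (l + 1) := hA.rule 0 l (by omega) (by omega)
    have eb : B 1 (l + 1) = B 0 l + B 0 (l + 1) := hB.rule 0 l (by omega) (by omega)
    rw [ea, eb, h1 l (by omega) (by omega), h1 (l + 1) (by omega) (by omega)]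
    generalize A 0 l = x
    generalize A 0 (l + 1) = y
    revert x y
    decide
  have r1' : B 1 (k + 4) = A 1 (k + 4) + 1 := by
    have ea : A 1 (k + 4) = A 0 (k + 3) + A 0 (k + 4) := hA.rule 0 (k + 3) (by omega) (by omega)
    have eb : B 1 (k + 4) = B 0 (k + 3) + B 0 (k + 4) := hB.rule 0 (k + 3) (by omega) (by omega)
    rw [ea, eb, h1 (k + 3) (by omega) (by omega), h2]
    ring
  have e21 : B 2 1 = A 2 1 := by
    rw [hB.symm 2 1 (by omega) (by omega), hA.symm 2 1 (by omega) (by omega)]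
    exact r1 2 (by omega) (by omega)
  have r2 : ∀ j, 3 ≤ j → j + 1 < k + 5 → B 2 j = A 2 j := by
    intro j hj hj'
    obtain ⟨l, rfl⟩ : ∃ l, j = l + 1 := ⟨j - 1, by omega⟩
    have ea : A 2 (l + 1) = A 1 l + A 1 (l + 1) := hA.rule 1 l (by omega) (by omega)
    have eb : B 2 (l + 1) = B 1 l + B 1 (l + 1) := hB.rule 1 l (by omega) (by omega)
    rw [ea, eb, r1 l (by omega) (by omega), r1 (l + 1) (by omega) (by omega)]
  have r2' : B 2 (k + 4) = A 2 (k + 4) + 1 := by
    have ea : A 2 (k + 4) = A 1 (k + 3) + A 1 (k + 4) := hA.rule 1 (k + 3) (by omega) (by omega)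
    have eb : B 2 (k + 4) = B 1 (k + 3) + B 1 (k + 4) := hB.rule 1 (k + 3) (by omega) (by omega)
    rw [ea, eb, r1 (k + 3) (by omega) (by omega), r1']
    ring
  have hmid : ∀ j ∈ Finset.range (k + 3), ind (A 2 (j + 1)) = ind (B 2 (j + 1)) := by
    intro j hj
    have hj' := Finset.mem_range.1 hj
    rcases Nat.lt_or_ge j 1 with h | h
    · obtain rfl : j = 0 := by omega
      rw [zero_add, e21]
    · rcases Nat.lt_or_ge j 2 with h' | h'
      · obtain rfl : j = 1 := by omega
        rw [show 1 + 1 = 2 from rfl, hA.diag 2 (by omega), hB.diag 2 (by omega)]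
      · rw [r2 (j + 1) (by omega) (by omega)]
  have hsplit : ∀ C : ℕ → ℕ → ZMod 2, deg (k + 5) C 2 =
      ∑ j ∈ Finset.range (k + 3), ind (C 2 (j + 1)) + ind (C 2 0) + ind (C 2 (k + 4)) := by
    intro C
    rw [deg_eq, Finset.sum_range_succ, Finset.sum_range_succ']
  rw [hsplit A, hsplit B, Finset.sum_congr rfl hmid, e20, r2'] at hdeg
  have hne : A 2 (k + 4) + A 2 0 = 1 := ne_add _ _ (by omega)
  apply odd_of_cast
  rw [deg_cast, show k + 5 = (k + 1) + 4 from rfl, row_three (k + 5) A hA (k + 1) (by omega),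
    show k + 1 + 3 = k + 4 from rfl, hA.symm 0 2 (by omega) (by omega), add_comm]
  exact hne

theorem rows (n : ℕ) (A B : ℕ → ℕ → ZMod 2) (hA : Steinhaus n A) (hB : Steinhaus n B)
    (h1 : ∀ j, 1 ≤ j → j + 1 < n → B 0 j = A 0 j + 1) (h2 : B 0 (n - 1) = A 0 (n - 1)) (i : ℕ)
    (hi : i + 2 < n) : (∀ j, i + 1 < j → j + 1 < n → B (i + 1) j = A (i + 1) j) ∧
      B (i + 1) (n - 1) = A (i + 1) (n - 1) + 1 := by
  induction i with
  | zero =>
    refine ⟨?_, ?_⟩
    · intro j hj hj'
      obtain ⟨l, rfl⟩ : ∃ l, j = l + 1 := ⟨j - 1, by omega⟩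
      rw [hA.rule 0 l (by omega) (by omega), hB.rule 0 l (by omega) (by omega), h1 l (by omega) (by omega),
        h1 (l + 1) (by omega) (by omega)]
      generalize A 0 l = x
      generalize A 0 (l + 1) = y
      revert x y
      decide
    · obtain ⟨l, rfl⟩ : ∃ l, n = l + 2 := ⟨n - 2, by omega⟩
      simp only [show l + 2 - 1 = l + 1 from rfl] at h2 ⊢
      rw [hA.rule 0 l (by omega) (by omega), hB.rule 0 l (by omega) (by omega), h1 l (by omega) (by omega), h2]
      ring
  | succ i ih =>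
    obtain ⟨ih1, ih2⟩ := ih (by omega)
    refine ⟨?_, ?_⟩
    · intro j hj hj'
      obtain ⟨l, rfl⟩ : ∃ l, j = l + 1 := ⟨j - 1, by omega⟩
      rw [hA.rule (i + 1) l (by omega) (by omega), hB.rule (i + 1) l (by omega) (by omega),
        ih1 l (by omega) (by omega), ih1 (l + 1) (by omega) (by omega)]
    · obtain ⟨l, rfl⟩ : ∃ l, n = l + 2 := ⟨n - 2, by omega⟩
      simp only [show l + 2 - 1 = l + 1 from rfl] at ih2 ⊢
      rw [hA.rule (i + 1) l (by omega) (by omega), hB.rule (i + 1) l (by omega) (by omega),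
        ih1 l (by omega) (by omega), ih2]
      ring

/-- The matrix reflected in its antidiagonal. -/
def flip (n : ℕ) (A : ℕ → ℕ → ZMod 2) (i j : ℕ) : ZMod 2 := A (n - 1 - j) (n - 1 - i)

theorem flip_steinhaus (n : ℕ) (A : ℕ → ℕ → ZMod 2) (hA : Steinhaus n A) : Steinhaus n (flip n A) where
  diag i hi := hA.diag _ (by omega)
  symm i j hi hj := hA.symm _ _ (by omega) (by omega)
  rule i j hij hj := by
    unfold flip
    have h := hA.rule (n - 1 - (j + 1)) (n - 1 - (i + 1)) (by omega) (by omega)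
    rw [show n - 1 - (j + 1) + 1 = n - 1 - j by omega, show n - 1 - (i + 1) + 1 = n - 1 - i by omega] at h
    rw [h]
    generalize A (n - 1 - (j + 1)) (n - 1 - (i + 1)) = x
    generalize A (n - 1 - (j + 1)) (n - 1 - i) = y
    revert x y
    decide

theorem flip_deg (n : ℕ) (A : ℕ → ℕ → ZMod 2) (hA : Steinhaus n A) (i : ℕ) (hi : i < n) :
    deg n (flip n A) i = deg n A (n - 1 - i) := by
  rw [deg_eq, deg_eq, ← Finset.sum_range_reflect (fun j => ind (A (n - 1 - i) j)) n]
  apply Finset.sum_congr rfl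
  intro j hj
  have hj' := Finset.mem_range.1 hj
  unfold flip
  rw [hA.symm (n - 1 - j) (n - 1 - i) (by omega) (by omega)]

theorem three' (n : ℕ) (hn : 5 ≤ n) (A B : ℕ → ℕ → ZMod 2) (hA : Steinhaus n A) (hB : Steinhaus n B)
    (hdeg : deg n A (n - 3) = deg n B (n - 3))
    (h1 : ∀ j, 1 ≤ j → j + 1 < n → B 0 j = A 0 j + 1) (h2 : B 0 (n - 1) = A 0 (n - 1)) :
    Odd (deg n A (n - 4)) := by
  have key := three n hn (flip n A) (flip n B) (flip_steinhaus n A hA) (flip_steinhaus n B hB) ?_ ?_ ?_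
  · rw [flip_deg n A hA 3 (by omega), show n - 1 - 3 = n - 4 by omega] at key
    exact key
  · rw [flip_deg n A hA 2 (by omega), flip_deg n B hB 2 (by omega), show n - 1 - 2 = n - 3 by omega]
    exact hdeg
  · intro j hj hj'
    have h := (rows n A B hA hB h1 h2 (n - 1 - j - 1) (by omega)).2
    rw [show n - 1 - j - 1 + 1 = n - 1 - j by omega] at h
    exact h
  · unfold flip
    rw [show n - 1 - (n - 1) = 0 by omega]
    exact h2

theorem zero (n : ℕ) (hn : 3 ≤ n) (A B : ℕ → ℕ → ZMod 2) (hA : Steinhaus n A) (hB : Steinhaus n B)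
    (hdeg : deg n A 0 = deg n B 0)
    (h1 : ∀ j, 1 ≤ j → j + 1 < n → B 0 j = A 0 j + 1) (h2 : B 0 (n - 1) = A 0 (n - 1)) :
    2 * deg n A 0 = (n - 2) + 2 * ind (A 0 (n - 1)) := by
  obtain ⟨k, rfl⟩ : ∃ k, n = k + 2 := ⟨n - 2, by omega⟩
  simp only [show k + 2 - 1 = k + 1 from rfl, show k + 2 - 2 = k from rfl] at h2 ⊢
  have hsum : ∑ j ∈ Finset.range k, ind (A 0 (j + 1)) + ∑ j ∈ Finset.range k, ind (B 0 (j + 1)) = k := by
    rw [← Finset.sum_add_distrib]
    rw [Finset.sum_congr rfl (g := fun _ => 1)]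
    · simp
    · intro j hj
      have hj' := Finset.mem_range.1 hj
      rw [h1 (j + 1) (by omega) (by omega)]
      exact ind_add_one _
  have eA : deg (k + 2) A 0 = ∑ j ∈ Finset.range k, ind (A 0 (j + 1)) + ind (A 0 (k + 1)) := by
    rw [deg_eq, Finset.sum_range_succ, Finset.sum_range_succ', hA.diag 0 (by omega)]
    simp [ind]
  have eB : deg (k + 2) B 0 = ∑ j ∈ Finset.range k, ind (B 0 (j + 1)) + ind (A 0 (k + 1)) := by
    rw [deg_eq, Finset.sum_range_succ, Finset.sum_range_succ', hB.diag 0 (by omega), h2]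
    simp [ind]
  omega

/-- **Main theorem.** Let `A` and `B` be the adjacency matrices of two Steinhaus graphs on `n ≥ 3` vertices
with the same degree sequence, whose generating strings differ by the string `11…10`. Then the vertices `3`
and `n - 4` have odd degree if `n ≥ 5`; `n ≡ 2 (mod 4)` if the degrees of the vertices `0` and `1` have the
same parity; and if all degrees have the same parity then all of them are odd (so the graphs are not
Eulerian). -/
theorem result (n : ℕ) (hn : 3 ≤ n) (A B : ℕ → ℕ → ZMod 2) (hA : Steinhaus n A) (hB : Steinhaus n B)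
    (hdeg : ∀ i, i < n → deg n A i = deg n B i)
    (h1 : ∀ j, 1 ≤ j → j + 1 < n → A 0 j + B 0 j = 1) (h2 : A 0 (n - 1) + B 0 (n - 1) = 0) :
    (5 ≤ n → Odd (deg n A 3) ∧ Odd (deg n A (n - 4))) ∧
      (deg n A 0 % 2 = deg n A 1 % 2 → n % 4 = 2) ∧
      ((∀ i, i < n → deg n A i % 2 = deg n A 0 % 2) → ∀ i, i < n → Odd (deg n A i)) := by
  have e1 : ∀ a b : ZMod 2, a + b = 1 → b = a + 1 := by decide
  have e2 : ∀ a b : ZMod 2, a + b = 0 → b = a := by decide
  have h1' : ∀ j, 1 ≤ j → j + 1 < n → B 0 j = A 0 j + 1 := fun j hj hj' => e1 _ _ (h1 j hj hj')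
  have h2' : B 0 (n - 1) = A 0 (n - 1) := e2 _ _ h2
  have hz := zero n hn A B hA hB (hdeg 0 (by omega)) h1' h2'
  have hind : ind (A 0 (n - 1)) ≤ 1 := by unfold ind; split <;> omega
  have hthree : 5 ≤ n → Odd (deg n A 3) ∧ Odd (deg n A (n - 4)) := fun h =>
    ⟨three n h A B hA hB (hdeg 2 (by omega)) h1' h2', three' n h A B hA hB (hdeg (n - 3) (by omega)) h1' h2'⟩
  have hone : deg n A 1 % 2 = ind (A 0 (n - 1)) := by
    have h := row_one n A hA (n - 2) (by omega)
    rw [show n - 2 + 2 = n by omega, show n - 2 + 1 = n - 1 by omega, ← deg_cast] at h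
    have h' : ((deg n A 1 : ℕ) : ZMod 2) = ((ind (A 0 (n - 1)) : ℕ) : ZMod 2) := by rw [h, ind_cast]
    rw [ZMod.natCast_eq_natCast_iff'] at h'
    omega
  have hmod : deg n A 0 % 2 = deg n A 1 % 2 → n % 4 = 2 := by
    intro h
    omega
  refine ⟨hthree, hmod, ?_⟩
  intro hall j hj
  have h4 := hmod (hall 1 (by omega)).symm
  have h3 := (hthree (by omega)).1
  have := hall 3 (by omega)
  have := hall j hj
  rw [Nat.odd_iff] at h3 ⊢
  omega

end Pool.Agent.Results.MP_79bdd6_co.OnesDifference
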